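import Pool.Agent.FPL.IAsm

/-!
# First-passage percolation with increasing-failure-rate weights (MP_813ff4_pr)

Let the survival function `t ↦ F [t, ∞)` of the weights be logarithmically concave (exponential, gamma with
shape at least one, uniform, half normal, all log-concave densities, ...), `F` not a point mass. Then every
passage time has a log-concave survival function, so has every limit law of normalised passage times along
any sequence of lengths; for the classical centring the right tail of a limit law is bounded by a power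
of its left tail without any moment condition; and the right half of the fluctuations, suitably
centred and scaled, is tight with limits that are not point masses.
-/

set_option autoImplicit false

open MeasureTheory Filter Topology
open scoped ENNReal NNReal
open Pool.Agent.FPL

namespace Pool.Agent.Results.MP_813ff4_pr.IncreasingFailureRate

theorem result (d : ℕ) (hd : 2 ≤ d) (F : Measure ℝ≥0) [IsProbabilityMeasure F]
    (hF : LogConc (sv F)) (hnd : ∀ c : ℝ≥0, F {c} ≠ 1) :
    (∀ x y : Pool.Agent.PB.V d, LogConc (fun s => (PF d F).real {ω | s ≤ T ω x y})) ∧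
    (∀ (φ : ℕ → ℕ) (a b : ℕ → ℝ) (Z : Measure ℝ), (∀ n, 0 < b n) → IsProbabilityMeasure Z →
      WL (fun j => (PF d F).map (fun ω => (Tn ω (φ j) - a j) / b j)) Z →
      LogConc (fun s => Z.real (Set.Ici s))) ∧
    (∀ (a b : ℕ → ℝ) (Z : Measure ℝ) (μ C0 : ℝ), (∀ n, 0 < b n) → IsProbabilityMeasure Z →
      (∀ c : ℝ, Z {c} ≠ 1) → WL (law d F a b) Z →
      (∀ᶠ n : ℕ in atTop, |a n - n * μ| ≤ C0 * b n) → 0 < Z.real (Set.Iio (-C0)) →
      (∃ C c : ℝ, 0 < C ∧ 0 < c ∧ ∀ s : ℝ, 1 ≤ s →
        Z.real (Set.Ici (C * s)) ≤ Z.real (Set.Iic (-s)) ^ c) ∧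
      (∀ η : ℝ, 1 ≤ η → RightExp Z η →
        ∀ ε : ℝ, 0 < ε → ∃ C : ℝ, ∀ n : ℕ, 1 ≤ n → b n ≤ C * (n : ℝ) ^ (1 - 1 / η + ε))) ∧
    (∃ a b : ℕ → ℝ, (∀ n, 0 < b n) ∧ (∀ᶠ n in atTop, (PF d F).real {ω | a n < Tn ω n} = 1 / 2) ∧
      ∀ φ : ℕ → ℕ, StrictMono φ → ∃ ψ : ℕ → ℕ, StrictMono ψ ∧ ∃ Z : Measure ℝ,
        IsProbabilityMeasure Z ∧ 1 / 2 ≤ Z.real {0} ∧ 1 / 4 ≤ Z.real (Set.Ici 1) ∧
        WL (fun j => (PF d F).map (fun ω =>
          max ((Tn ω (φ (ψ j)) - a (φ (ψ j))) / b (φ (ψ j))) 0)) Z) :=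
  mainI (le_trans one_le_two hd) F hF hnd

end Pool.Agent.Results.MP_813ff4_pr.IncreasingFailureRate
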