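import Pool.Agent.FPL.Main

/-!
# Limit laws of first-passage times: tails and order of the fluctuations (MP_813ff4_pr)

First-passage percolation on `ℤ^d`, `d ≥ 2`, i.i.d. weights of law `F` with `F {0} < p_c(d)` and finite second moment.
Suppose `(T(0, n e_1) - a n) / b n` converges in distribution to a law `Z` that is not a point mass, with the
classical centring `a n = n μ + O(b n)`. Then the left tail of `Z` is at least Gaussian, the right tail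
of `Z` is bounded by a power of its left tail as soon as `Z` has a right exponential moment, and the
exponents of the two tails bound the order of `b n` from below and from above by `n^(1 - 1/η)`.
-/

set_option autoImplicit false

open MeasureTheory Filter Topology
open scoped ENNReal NNReal
open Pool.Agent.FPL
open Pool.Agent.PB (pc)

namespace Pool.Agent.Results.MP_813ff4_pr.LimitLawTails

theorem result (d : ℕ) (hd : 2 ≤ d) (F : Measure ℝ≥0) [IsProbabilityMeasure F]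
    (hF : F.real {0} < pc d) (h2 : ∫⁻ t, ((t : ℝ≥0) : ℝ≥0∞) ^ 2 ∂F ≠ ⊤)
    (a b : ℕ → ℝ) (hb : ∀ n, 0 < b n)
    (Z : Measure ℝ) [IsProbabilityMeasure Z] (hZ : ∀ c : ℝ, Z {c} ≠ 1)
    (hlim : WL (law d F a b) Z) (μ C0 : ℝ)
    (hC : ∀ᶠ n : ℕ in atTop, |a n - n * μ| ≤ C0 * b n) (hq : 0 < Z.real (Set.Iio (-C0))) :
    (∃ C : ℝ, 0 < C ∧ ∀ s : ℝ, 1 ≤ s → Real.exp (-(C * s ^ 2)) ≤ Z.real (Set.Iic (-s))) ∧
    ((∃ lam : ℝ, 0 < lam ∧ Integrable (fun z : ℝ => Real.exp (lam * z)) Z) →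
      ∃ C c : ℝ, 0 < C ∧ 0 < c ∧ ∀ s : ℝ, 1 ≤ s →
        Z.real (Set.Ici (C * s)) ≤ Z.real (Set.Iic (-s)) ^ c) ∧
    (∀ η : ℝ, 1 ≤ η → LeftExp Z η →
      ∀ ε : ℝ, 0 < ε → ∃ c : ℝ, 0 < c ∧ ∀ n : ℕ, 1 ≤ n → c * (n : ℝ) ^ (1 - 1 / η - ε) ≤ b n) ∧
    (∀ η : ℝ, 1 ≤ η → (∃ lam : ℝ, 0 < lam ∧ Integrable (fun z : ℝ => Real.exp (lam * z)) Z) →
      RightExp Z η →
      ∀ ε : ℝ, 0 < ε → ∃ C : ℝ, ∀ n : ℕ, 1 ≤ n → b n ≤ C * (n : ℝ) ^ (1 - 1 / η + ε)) :=
  mainA (le_trans one_le_two hd) F hF h2 hb hZ hlim hC hq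

end Pool.Agent.Results.MP_813ff4_pr.LimitLawTails
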