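import Pool.Agent.FPL.JFin

/-!
# Power law normalisations of first-passage times (MP_813ff4_pr)

First-passage percolation on `ℤ^d`, `d ≥ 2`, i.i.d. weights of law `F` with `F {0} < p_c(d)` and finite second moment. If
`(T(0, n e_1) - α n) / b n` converges in distribution to a law `Z` that is not a point mass and
`b (k n) / b n → k^χ` for every integer `k ≥ 1` (for example `b n = n^χ`), then `χ ≤ 1/2`, and either the centring
exceeds `n μ` (`μ` the time constant) by much more than `b n`, or `Z` is bounded below, or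
`P(Z ≤ -s) ≥ exp (-C s^(1/(1-χ)))` for all `s ≥ 1`. If `F` has bounded support then, for all `b`,
`b n ≤ C √(n / log n)`.
-/

set_option autoImplicit false

open MeasureTheory Filter Topology
open scoped ENNReal NNReal
open Pool.Agent.FPL
open Pool.Agent.PB (pc)

namespace Pool.Agent.Results.MP_813ff4_pr.NoGaussianPowerLaw

theorem result (d : ℕ) (hd : 2 ≤ d) (F : Measure ℝ≥0) [IsProbabilityMeasure F]
    (hF : F.real {0} < pc d) (h2 : ∫⁻ t, ((t : ℝ≥0) : ℝ≥0∞) ^ 2 ∂F ≠ ⊤)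
    (α b : ℕ → ℝ) (hb : ∀ n, 0 < b n)
    (Z : Measure ℝ) [IsProbabilityMeasure Z] (hZ : ∀ c : ℝ, Z {c} ≠ 1)
    (hlim : WL (law d F α b) Z) :
    (∃ μ : ℝ, Tendsto (fun n : ℕ => (∫ ω, Tn ω n ∂(PF d F)) / n) atTop (𝓝 μ) ∧
      ∀ χ : ℝ, (∀ k : ℕ, 1 ≤ k → Tendsto (fun n => b (k * n) / b n) atTop (𝓝 ((k : ℝ) ^ χ))) →
        χ ≤ 1 / 2 ∧
        (Tendsto (fun n : ℕ => (α n - n * μ) / b n) atTop atTop ∨
          (∃ L : ℝ, Z.real (Set.Iio (-L)) = 0) ∨
          (∃ C : ℝ, 0 < C ∧ ∀ s : ℝ, 1 ≤ s →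
            Real.exp (-(C * s ^ (1 / (1 - χ)))) ≤ Z.real (Set.Iic (-s))))) ∧
    (∀ M : ℝ≥0, F (Set.Ioi M) = 0 →
      ∃ C : ℝ, ∀ n : ℕ, 2 ≤ n → b n ≤ C * Real.sqrt (n / Real.log n)) :=
  mainJ2 hd F hF h2 hb hZ hlim

end Pool.Agent.Results.MP_813ff4_pr.NoGaussianPowerLaw
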