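import Pool.Agent.TWF.Gen

/-!
# GUE Tracy-Widom law for undirected planar first-passage percolation with sparse disorder (MP_813ff4_pr)

First-passage percolation on `ℤ²` with i.i.d. weights of law `F` on `[a, ∞)`, `a > 0`, `ε = F[3a, ∞)`, `ε' = F(a, 3a)`, so
`F{a} = 1 - ε - ε'`. For every `δ > 0` there are `C` and `c > 0` such that for all such `F` and all `n` with `n ε ≥ C`,
`n ε ∫_{t ≥ 3a} min(t / (a (nε)^(1/3)), 1) dF ≤ c` (in particular if `n ε² ≤ c`) and `n ε' ≤ c (nε)^(1/3)`, the distribution function of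
`(T(0, n e_1)/a - n - nε/2) / (nε/2)^(1/3)` differs from the one of `-χ`, `χ` GUE Tracy-Widom, by at most `δ`, uniformly. `F2` is
the Fredholm determinant of the Airy kernel.
-/

set_option autoImplicit false

open MeasureTheory Filter Topology
open scoped ENNReal NNReal
open Pool.Agent.FPL Pool.Agent.TWF

namespace Pool.Agent.Results.MP_813ff4_pr.TracyWidom

theorem result :
    (Continuous F2 ∧ Monotone F2 ∧ Tendsto F2 atBot (𝓝 0) ∧ Tendsto F2 atTop (𝓝 1)) ∧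
    ∀ δ : ℝ, 0 < δ → ∃ C c : ℝ, 0 < c ∧
      ∀ (F : Measure ℝ≥0) (_ : IsProbabilityMeasure F) (a : ℝ≥0) (n : ℕ) (ε ε' h m : ℝ), 0 < a →
        F (Set.Iio a) = 0 → F.real (Set.Ici (3 * a)) = ε → F.real (Set.Ioo a (3 * a)) = ε' →
        h = ((n : ℝ) * ε) ^ ((1 : ℝ) / 3) → m = (n : ℝ) * ε / 2 →
        C ≤ (n : ℝ) * ε →
        (n : ℝ) * ε * (∫ t in Set.Ici (3 * a), min ((t : ℝ) / (a * h)) 1 ∂F) ≤ c →
        (n : ℝ) * ε' ≤ c * h →
        ∀ x : ℝ, |(PF 2 F).real {ω | Tn ω n ≤ a * ((n : ℝ) + m + x * m ^ ((1 : ℝ) / 3))} -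
          (1 - F2 (-x))| ≤ δ := by
  refine ⟨⟨f2_cont, f2_mono, f2_bot, f2_top⟩, fun δ hδ => ?_⟩
  obtain ⟨C, c, hc, H⟩ := gen δ hδ
  refine ⟨C, c, hc, fun F hF a n ε ε' h m ha hFa hε hε' hh hm h1 h2 h3 x => ?_⟩
  subst hε hε' hm
  exact H F hF a n h ha hFa hh h1 h2 h3 x

end Pool.Agent.Results.MP_813ff4_pr.TracyWidom
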